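import Pool.Agent.H89.CMC.Targets2

/-!
# Stage 2, part B: symmetries of the angular factor
-/

set_option autoImplicit false

open MeasureTheory Set Filter NumberField NumberField.InfinitePlace
  Pool.Agent.H65.CM4 Pool.Agent.H65.CMC Pool.Agent.H89.CM4 Pool.Agent.H89.CMC
open scoped Real

namespace Pool.Agent.H55.CMC

variable (k : Type) [Field k] [NumberField k] [IsTotallyReal k]

theorem norm_ac_ANR (x y a b : ℝ) (hy : 0 < y) (h : ¬ (a = 0 ∧ b = 0)) :
    ‖ac (x : ℂ) (y : ℂ) a b‖ = 1 := by
  unfold ac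
  have e : ((a : ℂ) + b * ((x : ℂ) - Complex.I * (y : ℂ))) =
      (starRingEnd ℂ) ((a : ℂ) + b * ((x : ℂ) + Complex.I * (y : ℂ))) := by
    simp only [map_add, map_mul, Complex.conj_ofReal, Complex.conj_I]
    ring
  rw [e, norm_div, RCLike.norm_conj]
  refine div_self ?_
  rw [norm_ne_zero_iff]
  intro h0
  have hre := congrArg Complex.re h0
  have him := congrArg Complex.im h0
  simp at hre him
  rcases him with him | him
  · rw [him] at hre
    exact h ⟨by simpa using hre, him⟩
  · exact hy.ne' him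

theorem pf_ANR : T_ANR k := by
  refine ⟨?_, ?_, ?_⟩
  · intro m x y u hy hu
    unfold an
    rw [norm_prod]
    refine Finset.prod_eq_one fun v _ => ?_
    rw [norm_zpow, norm_ac_ANR (x v) (y v) _ _ (hy v), one_zpow]
    rintro ⟨h1, h2⟩
    apply hu
    have e1 : (u.1 : k) = 0 := (rv v).injective (by rw [h1, map_zero])
    have e2 : (u.2 : k) = 0 := (rv v).injective (by rw [h2, map_zero])
    exact Prod.ext (by exact_mod_cast e1) (by exact_mod_cast e2)
  · intro m x y u c hc
    unfold an
    refine Finset.prod_congr rfl fun v _ => ?_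
    have hc0 : (rv v (c : k) : ℂ) ≠ 0 := by
      intro h
      apply hc
      have e1 : rv v (c : k) = 0 := by exact_mod_cast h
      have e2 : (c : k) = 0 := (rv v).injective (by rw [e1, map_zero])
      exact_mod_cast e2
    have h : ac (x v) (y v) (rv v ((c • u).1 : k)) (rv v ((c • u).2 : k)) =
        ac (x v) (y v) (rv v (u.1 : k)) (rv v (u.2 : k)) := by
      unfold ac
      have e1 : rv v ((c • u).1 : k) = rv v (c : k) * rv v (u.1 : k) := by
        rw [← map_mul]
        rfl
      have e2 : rv v ((c • u).2 : k) = rv v (c : k) * rv v (u.2 : k) := by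
        rw [← map_mul]
        rfl
      have g : ∀ z : ℂ, (((rv v (c : k) * rv v (u.1 : k) : ℝ) : ℂ) +
          ((rv v (c : k) * rv v (u.2 : k) : ℝ) : ℂ) * z) =
          (rv v (c : k) : ℂ) * (((rv v (u.1 : k) : ℝ) : ℂ) + ((rv v (u.2 : k) : ℝ) : ℂ) * z) := by
        intro z
        push_cast
        ring
      rw [e1, e2, g, g, mul_div_mul_left _ _ hc0]
    rw [h]
  · intro m x y u a
    unfold an
    refine Finset.prod_congr rfl fun v _ => ?_
    have h : ac (x v + ((rv v (a : k) : ℝ) : ℂ)) (y v) (rv v (u.1 : k)) (rv v (u.2 : k)) =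
        ac (x v) (y v) (rv v ((u.1 + a * u.2 : 𝓞 k) : k)) (rv v (u.2 : k)) := by
      unfold ac
      have e1 : rv v ((u.1 + a * u.2 : 𝓞 k) : k) =
          rv v (u.1 : k) + rv v (a : k) * rv v (u.2 : k) := by
        rw [← map_mul, ← map_add]
        rfl
      rw [e1]
      congr 1 <;> push_cast <;> ring
    rw [h]

end Pool.Agent.H55.CMC
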